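import Mathlib
import Pool.Agent.H92.SG.Stmts

/-!
# Board sg7, module SPEC
-/

namespace Pool.Agent.H87.SG7

open Pool.Agent.H92.SG

theorem exists_rows {k : Type} [Field k] {m n : Type} [Fintype m] [Fintype n] [DecidableEq m]
    [DecidableEq n] (P : Matrix m n k) (hP : ∀ v : n → k, P.mulVec v = 0 → v = 0) :
    ∃ e : n → m, (P.submatrix e id).det ≠ 0 := by
  classical
  have hinj : Function.Injective P.mulVecLin := by
    rw [injective_iff_map_eq_zero]
    intro v hv
    exact hP v hv
  have hrank : Module.finrank k (LinearMap.range P.mulVecLin) = Fintype.card n := by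
    rw [LinearMap.finrank_range_of_inj hinj, Module.finrank_fintype_fun_eq_card]
  have hspan : Submodule.span k (Set.range P.row) = ⊤ := by
    apply Submodule.eq_top_of_finrank_eq
    rw [← Matrix.rank_eq_finrank_span_row, Module.finrank_fintype_fun_eq_card]
    exact hrank
  obtain ⟨b, hb, hbs, hli⟩ := exists_linearIndependent k (Set.range P.row)
  have hbs' : ⊤ ≤ Submodule.span k (Set.range (Subtype.val : b → n → k)) := by
    rw [Subtype.range_coe, hbs, hspan]
  let B : Module.Basis b k (n → k) := Module.Basis.mk hli hbs'
  let C : Module.Basis n k (n → k) := Pi.basisFun k n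
  let eq : n ≃ b := C.indexEquiv B
  have hex : ∀ i : n, ∃ j : m, P.row j = (eq i : n → k) := by
    intro i
    obtain ⟨j, hj⟩ := hb (eq i).2
    exact ⟨j, hj⟩
  choose e he using hex
  refine ⟨e, ?_⟩
  have hli2 : LinearIndependent k (P.submatrix e id).row := by
    have h1 : (P.submatrix e id).row = fun i : n => ((eq i : b) : n → k) := by
      funext i
      rw [← he i]
      rfl
    rw [h1]
    exact hli.comp eq eq.injective
  have hu := Matrix.linearIndependent_rows_iff_isUnit.mp hli2
  exact ((Matrix.isUnit_iff_isUnit_det _).mp hu).ne_zero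

theorem SPEC_thm : SpecStmt := by
  intro A F k _ _ _ _ f g hfg m n _ _ _ _ M hM v hv
  obtain ⟨e, he⟩ := exists_rows (M.map f) hM
  have hd : f ((M.submatrix e id).det) = ((M.map f).submatrix e id).det := by
    rw [RingHom.map_det]
    rfl
  have hg : g ((M.submatrix e id).det) ≠ 0 := by
    intro h
    exact he (by rw [← hd]; exact hfg _ h)
  have hgd : g ((M.submatrix e id).det) = ((M.map g).submatrix e id).det := by
    rw [RingHom.map_det]
    rfl
  rw [hgd] at hg
  have hmv : ((M.map g).submatrix e id).mulVec v = 0 := by
    funext i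
    have := congrFun hv (e i)
    simpa [Matrix.mulVec, dotProduct] using this
  exact Matrix.eq_zero_of_mulVec_eq_zero hg hmv

end Pool.Agent.H87.SG7
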