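import Mathlib
import Pool.Agent.H92.SG.Stmts

/-!
# Board sg7, module SYL
-/

namespace Pool.Agent.H87.SG7

open Pool.Agent.H92.SG

/-- Dimension of the sum of an image and a subspace. -/
theorem finrank_image_sup {k V W : Type} [Field k] [AddCommGroup V] [Module k V]
    [FiniteDimensional k V] [AddCommGroup W] [Module k W] [FiniteDimensional k W]
    (D : V →ₗ[k] W) (Z : Submodule k W) (T : Submodule k V) :
    Module.finrank k T + Module.finrank k Z ≤
      Module.finrank k (Submodule.map D T ⊔ Z : Submodule k W) +
        Module.finrank k (Z.comap D) := by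
  let φ : (T × Z) →ₗ[k] W := LinearMap.coprod (D.comp T.subtype) Z.subtype
  have h1 := LinearMap.finrank_range_add_finrank_ker φ
  rw [Module.finrank_prod] at h1
  have hr : LinearMap.range φ = Submodule.map D T ⊔ Z := by
    rw [LinearMap.range_coprod, LinearMap.range_comp, Submodule.range_subtype,
      Submodule.range_subtype]
  rw [hr] at h1
  have hk : Module.finrank k (LinearMap.ker φ) ≤ Module.finrank k (Z.comap D) := by
    let ψ : (LinearMap.ker φ) →ₗ[k] (Z.comap D) :=
      { toFun := fun p => ⟨((p : T × Z).1 : V), by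
          have hp : φ (p : T × Z) = 0 := p.2
          have hp' : D ((p : T × Z).1 : V) + ((p : T × Z).2 : W) = 0 := hp
          have h3 : D ((p : T × Z).1 : V) = -((p : T × Z).2 : W) := eq_neg_of_add_eq_zero_left hp'
          rw [Submodule.mem_comap, h3]
          exact Z.neg_mem (p : T × Z).2.2⟩
        map_add' := fun p q => rfl
        map_smul' := fun c p => rfl }
    apply LinearMap.finrank_le_finrank_of_injective (f := ψ)
    rw [injective_iff_map_eq_zero]
    intro p hp
    have h4 : ((p : T × Z).1 : V) = 0 := congrArg Subtype.val hp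
    have hpk : φ (p : T × Z) = 0 := p.2
    have hp' : D ((p : T × Z).1 : V) + ((p : T × Z).2 : W) = 0 := hpk
    rw [h4, map_zero, zero_add] at hp'
    apply Subtype.ext
    apply Prod.ext
    · exact Subtype.ext h4
    · exact Subtype.ext hp'
  omega

/-- If all the vectors of `P` are orthogonal to all the vectors of `U`, then
`dim P + dim U ≤ card κ`. -/
theorem finrank_orth {k : Type} [Field k] (cb : k →+* k) (hcb : ∀ x, cb (cb x) = x)
    {κ : Type} [Fintype κ] [DecidableEq κ] (M : Matrix κ κ k) (hM : IsUnit M.det)
    (P U : Submodule k (κ → k)) (h : ∀ p ∈ P, ∀ u ∈ U, sesq cb M p u = 0) :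
    Module.finrank k P + Module.finrank k U ≤ Fintype.card κ := by
  classical
  have hinj : Function.Injective M.mulVecLin := by
    rw [injective_iff_map_eq_zero]
    intro v hv
    exact Matrix.eq_zero_of_mulVec_eq_zero hM.ne_zero hv
  have hU' : Module.finrank k (U.map M.mulVecLin) = Module.finrank k U :=
    (LinearEquiv.finrank_eq (Submodule.equivMapOfInjective M.mulVecLin hinj U)).symm
  let b := Module.finBasis k (U.map M.mulVecLin)
  let B : Matrix (Fin (Module.finrank k (U.map M.mulVecLin))) κ k :=
    fun j i => cb ((b j : κ → k) i)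
  have hB : LinearIndependent k B.row := by
    have hb : LinearIndependent k (fun j => (b j : κ → k)) :=
      b.linearIndependent.map' (U.map M.mulVecLin).subtype (Submodule.ker_subtype _)
    rw [Fintype.linearIndependent_iff] at hb ⊢
    intro c hc j
    have h1 : ∑ j, cb (c j) • (b j : κ → k) = 0 := by
      funext i
      have h2 := congrFun hc i
      have h3 := congrArg cb h2
      simpa [B, Matrix.row, Finset.sum_apply, hcb] using h3
    have h4 := hb (fun j => cb (c j)) h1 j
    have h5 := congrArg cb h4
    simpa [hcb] using h5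
  have hrk : B.rank = Module.finrank k (U.map M.mulVecLin) := by
    rw [hB.rank_matrix, Fintype.card_fin]
  have hker := LinearMap.finrank_range_add_finrank_ker B.mulVecLin
  rw [Module.finrank_fintype_fun_eq_card] at hker
  have hle : P ≤ LinearMap.ker B.mulVecLin := by
    intro p hp
    rw [LinearMap.mem_ker]
    funext j
    obtain ⟨u, hu, hub⟩ := (Submodule.mem_map).mp (b j).2
    have h1 := h p hp u hu
    have h2 := congrArg cb h1
    have h3 : (b j : κ → k) = M.mulVec u := hub.symm
    simp only [Matrix.mulVecLin_apply, Pi.zero_apply]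
    rw [← map_zero cb, ← h1]
    simp only [Matrix.mulVec, dotProduct, B, h3, sesq, map_sum, map_mul, hcb, Finset.sum_mul]
    refine Finset.sum_congr rfl fun x _ => Finset.sum_congr rfl fun y _ => ?_
    ring
  have hP := Submodule.finrank_mono hle
  have hrk' : Module.finrank k (LinearMap.range B.mulVecLin) =
      Module.finrank k (U.map M.mulVecLin) := hrk
  omega

theorem sesq_add_right {k : Type} [Field k] (cb : k →+* k) {κ : Type} [Fintype κ]
    (M : Matrix κ κ k) (u v w : κ → k) : sesq cb M u (v + w) = sesq cb M u v + sesq cb M u w := by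
  simp only [sesq, Pi.add_apply, mul_add, Finset.sum_add_distrib]

theorem sesq_add_left {k : Type} [Field k] (cb : k →+* k) {κ : Type} [Fintype κ]
    (M : Matrix κ κ k) (u v w : κ → k) : sesq cb M (u + v) w = sesq cb M u w + sesq cb M v w := by
  simp only [sesq, Pi.add_apply, map_add, add_mul, Finset.sum_add_distrib]

theorem SYL_thm : SylStmt := by
  intro k _ cb hcb ι κ _ _ _ _ D M hM Z hZ1 hZ2 hZZ T hT
  have h1 := finrank_image_sup D Z T
  have h2 := finrank_image_sup D Z ⊤
  rw [finrank_top, Module.finrank_fintype_fun_eq_card] at h2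
  have h3 := finrank_orth cb hcb M hM (Submodule.map D T ⊔ Z) (Submodule.map D ⊤ ⊔ Z) (by
    intro p hp u hu
    obtain ⟨p1, hp1, p2, hp2, rfl⟩ := Submodule.mem_sup.mp hp
    obtain ⟨u1, hu1, u2, hu2, rfl⟩ := Submodule.mem_sup.mp hu
    obtain ⟨x, hx, rfl⟩ := (Submodule.mem_map).mp hp1
    obtain ⟨y, _, rfl⟩ := (Submodule.mem_map).mp hu1
    rw [sesq_add_left, sesq_add_right, sesq_add_right, hT x hx y, hZ2 u2 hu2 x,
      hZ1 p2 hp2 y, hZZ p2 hp2 u2 hu2]
    simp)
  omega

end Pool.Agent.H87.SG7
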